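import Pool.Agent.Lib.MP_76c039_coAM.Oper

set_option autoImplicit false

/-!
Central involutions in all subgroups of finite index act trivially, on average.
-/

namespace Pool.Agent.Lib.MP_76c039_coAM

open scoped InnerProductSpace

universe u

variable {G : Type*} [Group G] {M : (G → ℝ) → ℝ}

/-- No small subgroups, for groups of finite exponent. -/
theorem IsRep.eq_of_small {E : Type*} [NormedAddCommGroup E] [InnerProductSpace ℝ E]
    {U : G → E →L[ℝ] E} (hU : IsRep U) {n : ℕ} (hn : 0 < n) (g : G) (hg : g ^ n = 1) {c : ℝ}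
    (hc : n * c < 1) (hsm : ∀ v, ‖U g v - v‖ ≤ c * ‖v‖) (v : E) : U g v = v := by
  have hpow : ∀ (j : ℕ) (w : E), ‖U (g ^ j) w - w‖ ≤ j * (c * ‖w‖) := by
    intro j
    induction j with
    | zero => intro w; simp [hU.one]
    | succ j ih =>
      intro w
      have h1 : U (g ^ (j + 1)) w - w = U g (U (g ^ j) w - w) + (U g w - w) := by
        rw [pow_succ', hU.mul, map_sub]
        abel
      rw [h1]
      refine (norm_add_le _ _).trans ?_
      rw [hU.norm]
      push_cast
      have := ih w
      have := hsm w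
      linarith
  set w : E := U g v - v with hw
  have htel : ∀ m : ℕ, ∑ j ∈ Finset.range m, U (g ^ j) w = U (g ^ m) v - v := by
    intro m
    induction m with
    | zero => simp [hU.one]
    | succ m ih =>
      rw [Finset.sum_range_succ, ih, hw, map_sub, ← hU.mul, ← pow_succ]
      abel
  have h0 : ∑ j ∈ Finset.range n, U (g ^ j) w = 0 := by
    rw [htel, hg, hU.one, sub_self]
  have h1 : (n : ℝ) • w = ∑ j ∈ Finset.range n, (w - U (g ^ j) w) := by
    rw [Finset.sum_sub_distrib, h0, sub_zero, Finset.sum_const, Finset.card_range]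
    simp [Nat.cast_smul_eq_nsmul]
  have h2 : (n : ℝ) * ‖w‖ ≤ n * (n * (c * ‖w‖)) := by
    calc (n : ℝ) * ‖w‖ = ‖(n : ℝ) • w‖ := by rw [norm_smul]; simp
      _ ≤ ∑ j ∈ Finset.range n, ‖w - U (g ^ j) w‖ := by rw [h1]; exact norm_sum_le _ _
      _ ≤ ∑ j ∈ Finset.range n, (n * (c * ‖w‖)) := by
          refine Finset.sum_le_sum fun j hj => ?_
          rw [norm_sub_rev]
          refine (hpow j w).trans ?_
          apply mul_le_mul_of_nonneg_right
          · exact_mod_cast (Finset.mem_range.1 hj).le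
          · exact (norm_nonneg _).trans (hsm w)
      _ = n * (n * (c * ‖w‖)) := by rw [Finset.sum_const, Finset.card_range, nsmul_eq_mul]
  have hn' : (0 : ℝ) < n := by exact_mod_cast hn
  have h3 : ‖w‖ ≤ n * c * ‖w‖ := by
    have := le_of_mul_le_mul_left h2 hn'
    linarith
  have h4 : ‖w‖ = 0 := by
    by_contra hne
    have hpos : 0 < ‖w‖ := lt_of_le_of_ne (norm_nonneg _) (Ne.symm hne)
    nlinarith
  rw [norm_eq_zero] at h4
  rw [hw] at h4
  exact sub_eq_zero.1 h4

/-- A finite-dimensional representation of a group of finite exponent has a kernel of finite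
index. -/
theorem IsRep.finiteIndex {E : Type*} [NormedAddCommGroup E] [InnerProductSpace ℝ E]
    [FiniteDimensional ℝ E] {U : G → E →L[ℝ] E} (hU : IsRep U) {n : ℕ} (hn : 0 < n)
    (hexp : ∀ g : G, g ^ n = 1) :
    ∃ L : Subgroup G, L.FiniteIndex ∧ ∀ g ∈ L, ∀ v, U g v = v := by
  classical
  have hn' : (0 : ℝ) < n := by exact_mod_cast hn
  have hsep : ∀ g h : G, ‖U g - U h‖ < 1 / (2 * n) → U g = U h := by
    intro g h hgh
    have h1 : ∀ v, U (h⁻¹ * g) v = v := by
      apply hU.eq_of_small hn _ (hexp _) (c := 1 / (2 * n)) (by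
        have h9 : (n : ℝ) * (1 / (2 * n)) = 1 / 2 := by field_simp
        rw [h9]
        norm_num)
      intro v
      have h2 : ‖U (h⁻¹ * g) v - v‖ = ‖(U g - U h) v‖ := by
        rw [← hU.norm h, map_sub, ← hU.mul, mul_inv_cancel_left]
        rfl
      rw [h2]
      exact ((U g - U h).le_opNorm v).trans
        (mul_le_mul_of_nonneg_right hgh.le (norm_nonneg _))
    ext v
    have h3 := h1 v
    have h4 : U h (U (h⁻¹ * g) v) = U h v := by rw [h3]
    rwa [← hU.mul, mul_inv_cancel_left] at h4
  have hfin : (Set.range U).Finite := by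
    have htb : TotallyBounded (Set.range U) := by
      apply TotallyBounded.subset _ (isCompact_closedBall (0 : E →L[ℝ] E) 1).totallyBounded
      rintro _ ⟨g, rfl⟩
      rw [mem_closedBall_zero_iff]
      refine ContinuousLinearMap.opNorm_le_bound _ zero_le_one fun v => ?_
      rw [hU.norm, one_mul]
    obtain ⟨t, ht, hcov⟩ := Metric.totallyBounded_iff.1 htb (1 / (4 * n)) (by positivity)
    have hch : ∀ T : Set.range U, ∃ y ∈ t, T.1 ∈ Metric.ball y (1 / (4 * n)) := by
      intro T
      simpa using hcov T.2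
    choose y hyt hy using hch
    have := ht.to_subtype
    have hinj : Function.Injective (fun T : Set.range U => (⟨y T, hyt T⟩ : t)) := by
      rintro ⟨_, ⟨g, rfl⟩⟩ ⟨_, ⟨h, rfl⟩⟩ heq
      apply Subtype.ext
      apply hsep
      have h1 := hy ⟨U g, ⟨g, rfl⟩⟩
      have h2 := hy ⟨U h, ⟨h, rfl⟩⟩
      have h3 : y ⟨U g, ⟨g, rfl⟩⟩ = y ⟨U h, ⟨h, rfl⟩⟩ := congrArg Subtype.val heq
      rw [Metric.mem_ball] at h1 h2
      rw [h3] at h1
      rw [← dist_eq_norm]
      have h4 := dist_triangle_right (U g) (U h) (y ⟨U h, ⟨h, rfl⟩⟩)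
      have h5 : (1 : ℝ) / (2 * n) = 1 / (4 * n) + 1 / (4 * n) := by field_simp; norm_num
      rw [h5]
      exact lt_of_le_of_lt h4 (add_lt_add h1 h2)
    have : Finite (Set.range U) := Finite.of_injective _ hinj
    exact Set.toFinite _
  let φ : G →* (E →L[ℝ] E) :=
    { toFun := U
      map_one' := by ext v; exact hU.one v
      map_mul' := by intro g h; ext v; exact hU.mul g h v }
  have hrange : Finite φ.toHomUnits.range := by
    have := hfin.to_subtype
    apply Finite.of_injective (fun x : φ.toHomUnits.range => (⟨((x.1 : (E →L[ℝ] E)ˣ) :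
      E →L[ℝ] E), by
        obtain ⟨g, hg⟩ := x.2
        exact ⟨g, by rw [← hg]; rfl⟩⟩ : Set.range U))
    intro x y hxy
    apply Subtype.ext
    apply Units.ext
    exact congrArg Subtype.val hxy
  refine ⟨φ.toHomUnits.ker, inferInstance, fun g hg v => ?_⟩
  have h1 : φ.toHomUnits g = 1 := hg
  have h2 : U g = 1 := congrArg Units.val h1
  rw [h2]
  rfl

/-- The main point. -/
theorem IsRep.mean_zero {H : Type u} [NormedAddCommGroup H] [InnerProductSpace ℝ H]
    [CompleteSpace H] {U : G → H →L[ℝ] H} (hU : IsRep U) (hM : IsInvMean G M) (f : H) {n : ℕ}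
    (hn : 0 < n) (hexp : ∀ g : G, g ^ n = 1) (ζ : G) (hζ : ∀ g, ζ * g = g * ζ) (hζ2 : ζ * ζ = 1)
    (hfi : ∀ L : Subgroup G, L.FiniteIndex → ζ ∈ L) :
    M (fun h => ⟪U ζ f - f, U h f⟫_ℝ * ⟪U ζ f - f, U h f⟫_ℝ) = 0 := by
  obtain ⟨T, hT⟩ := exists_operator hU hM f
  have hcomp := hU.compact hM f T hT
  have hcomm := hU.commute hM f T hT
  have hsymm := op_symm f T hT
  let V : Submodule ℝ H :=
    { carrier := {v | U ζ v = -v}
      add_mem' := by
        intro a b ha hb
        change U ζ (a + b) = -(a + b)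
        rw [map_add, ha, hb]; abel
      zero_mem' := by change U ζ 0 = -0; simp
      smul_mem' := by
        intro c v hv
        change U ζ (c • v) = -(c • v)
        rw [map_smul, hv, smul_neg] }
  have hVm : ∀ v, v ∈ V ↔ U ζ v = -v := fun v => Iff.rfl
  have hVc : IsClosed (V : Set H) := isClosed_eq (U ζ).continuous continuous_neg
  have hVT : ∀ v ∈ V, T v ∈ V := by
    intro v hv
    rw [hVm] at hv ⊢
    rw [← hcomm, hv, map_neg]
  have : CompleteSpace V := hVc.completeSpace_coe
  have hT'c : IsCompactOperator (T.restrict hVT) := hcomp.restrict' hVT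
  have hT's : (T.restrict hVT : V →ₗ[ℝ] V).IsSymmetric := hsymm.restrict_invariant hVT
  have hzero : T.restrict hVT = 0 := by
    rw [← ContinuousLinearMap.eq_zero_of_forall_hasEigenvalue_eq_zero hT'c hT's]
    intro μ hμ
    by_contra hμ0
    obtain ⟨v, hv1, hv2⟩ := hμ.exists_hasEigenvector
    -- the eigenspace in `V`
    let E : Submodule ℝ H := Module.End.eigenspace (T : H →ₗ[ℝ] H) μ ⊓ V
    have hfd : FiniteDimensional ℝ (Module.End.eigenspace (T : H →ₗ[ℝ] H) μ) :=
      ContinuousLinearMap.finite_dimensional_eigenspace hcomp μ hμ0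
    have : FiniteDimensional ℝ E :=
      Submodule.finiteDimensional_of_le inf_le_left
    have hEm : ∀ w, w ∈ E ↔ T w = μ • w ∧ U ζ w = -w := by
      intro w
      simp only [E, Submodule.mem_inf, Module.End.mem_eigenspace_iff, hVm]
      rfl
    have hEU : ∀ g, ∀ w ∈ E, U g w ∈ E := by
      intro g w hw
      rw [hEm] at hw ⊢
      refine ⟨?_, ?_⟩
      · rw [hcomm, hw.1, map_smul]
      · rw [← hU.mul, hζ, hU.mul, hw.2, map_neg]
    have hrep : IsRep (fun g => (U g).restrict (hEU g)) :=
      { norm := fun g w => hU.norm g (w : H)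
        one := fun w => Subtype.ext (hU.one (w : H))
        mul := fun g h w => Subtype.ext (hU.mul g h (w : H)) }
    obtain ⟨L, hL, hLE⟩ := hrep.finiteIndex hn hexp
    have hζL := hfi L hL
    have hvE : (v : H) ∈ E := by
      rw [hEm]
      refine ⟨?_, v.2⟩
      have h1 := Module.End.mem_eigenspace_iff.1 hv1
      exact congrArg Subtype.val h1
    have h1 := hLE ζ hζL ⟨v, hvE⟩
    have h2 : U ζ (v : H) = v := congrArg Subtype.val h1
    have h3 : U ζ (v : H) = -v := v.2
    rw [h2] at h3
    apply hv2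
    apply Subtype.ext
    have h4 : (2 : ℝ) • (v : H) = 0 := by
      rw [two_smul]
      nth_rewrite 1 [h3]
      simp
    have h5 : (v : H) = 0 := by
      rcases smul_eq_zero.1 h4 with h | h
      · norm_num at h
      · exact h
    exact h5
  set w : H := U ζ f - f with hw
  have hwV : w ∈ V := by
    rw [hVm, hw, map_sub, ← hU.mul, hζ2, hU.one]
    abel
  have h1 : T w = 0 := by
    have h2 : T.restrict hVT ⟨w, hwV⟩ = 0 := by rw [hzero]; rfl
    exact congrArg Subtype.val h2
  rw [← hT, h1, inner_zero_left]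

end Pool.Agent.Lib.MP_76c039_coAM
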