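import Pool.Agent.Lib.MP_76c039_coAM.Hilb
import Pool.Agent.Lib.MP_76c039_coAM.Main
import Pool.Agent.Lib.MP_76c039_co.Struct2

set_option autoImplicit false

/-!
Groups with an infinite amenable subgroup have large monochromatic symmetric sets.
-/

namespace Pool.Agent.Lib.MP_76c039_coAM

open scoped InnerProductSpace

/-- The mean of the correlations of a vector is at least the square of its component along an
invariant unit vector. -/
theorem IsRep.mean_ge {G : Type*} [Group G] {M : (G → ℝ) → ℝ} {H : Type*} [NormedAddCommGroup H]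
    [InnerProductSpace ℝ H] [CompleteSpace H] {U : G → H →L[ℝ] H} (hU : IsRep U)
    (hM : IsInvMean G M) (f one : H) (h1 : ∀ g, U g one = one) (hn : ‖one‖ = 1) :
    ⟪one, f⟫_ℝ ^ 2 ≤ M (fun h => ⟪f, U h f⟫_ℝ) := by
  let F : H →ₗ[ℝ] ℝ :=
    { toFun := fun v => M (fun h => ⟪v, U h f⟫_ℝ)
      map_add' := by
        intro v w
        rw [← hM.add _ _ (hU.bdd v f) (hU.bdd w f)]
        congr 1
        funext h
        rw [inner_add_left]
      map_smul' := by
        intro c v
        simp only [RingHom.id_apply, smul_eq_mul]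
        rw [← hM.smul c _ (hU.bdd v f)]
        congr 1
        funext h
        rw [real_inner_smul_left] }
  have hF : ∀ v, ‖F v‖ ≤ ‖f‖ * ‖v‖ := by
    intro v
    have hle : ∀ h : G, |⟪v, U h f⟫_ℝ| ≤ ‖f‖ * ‖v‖ := fun h =>
      (abs_real_inner_le_norm _ _).trans (by rw [hU.norm, mul_comm])
    rw [Real.norm_eq_abs, abs_le]
    constructor
    · have h3 := hM.mono (bdd_const (-(‖f‖ * ‖v‖))) (hU.bdd v f) fun h => (abs_le.1 (hle h)).1
      rwa [hM.const] at h3
    · have h3 := hM.mono (hU.bdd v f) (bdd_const (‖f‖ * ‖v‖)) fun h => (abs_le.1 (hle h)).2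
      rwa [hM.const] at h3
  let F' : H →L[ℝ] ℝ := F.mkContinuous ‖f‖ hF
  let w : H := (InnerProductSpace.toDual ℝ H).symm F'
  have hw : ∀ v, ⟪w, v⟫_ℝ = M (fun h => ⟪v, U h f⟫_ℝ) := by
    intro v
    change ⟪(InnerProductSpace.toDual ℝ H).symm F', v⟫_ℝ = _
    rw [InnerProductSpace.toDual_symm_apply]
    rfl
  have hinv : ∀ g, U g w = w := by
    intro g
    apply ext_inner_right ℝ
    intro v
    rw [hU.inner_inv, hw, hw]
    have h3 : (fun h => ⟪U g⁻¹ v, U h f⟫_ℝ) = fun h => (fun h => ⟪v, U h f⟫_ℝ) (g * h) := by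
      funext h
      simp only
      rw [hU.inner_inv, inv_inv, hU.mul]
    rw [h3, hM.inv g _ (hU.bdd v f)]
  have h4 : ⟪w, f⟫_ℝ = M (fun h => ⟪f, U h f⟫_ℝ) := hw f
  have h5 : ⟪w, w⟫_ℝ = ⟪w, f⟫_ℝ := by
    have h6 : (fun h : G => ⟪w, U h f⟫_ℝ) = fun _ => ⟪w, f⟫_ℝ := by
      funext h
      have h7 : ⟪U h w, U h f⟫_ℝ = ⟪w, f⟫_ℝ := hU.inner h w f
      rwa [hinv] at h7
    rw [hw w, h6, hM.const]
  have h8 : ⟪w, one⟫_ℝ = ⟪one, f⟫_ℝ := by
    have h9 : (fun h : G => ⟪one, U h f⟫_ℝ) = fun _ => ⟪one, f⟫_ℝ := by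
      funext h
      have h7 : ⟪U h one, U h f⟫_ℝ = ⟪one, f⟫_ℝ := hU.inner h one f
      rwa [h1] at h7
    rw [hw one, h9, hM.const]
  rw [← h4, ← h5, ← h8, real_inner_self_eq_norm_sq]
  have h10 := abs_real_inner_le_norm w one
  rw [hn, mul_one] at h10
  calc ⟪w, one⟫_ℝ ^ 2 = |⟪w, one⟫_ℝ| ^ 2 := (sq_abs _).symm
    _ ≤ ‖w‖ ^ 2 := pow_le_pow_left₀ (abs_nonneg _) h10 2

/-- The core statement. -/
theorem core_false {G : Type*} [Group G] [Infinite G] (hA : Amenable G) {N : ℕ} (hN : Odd N)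
    (Z : Subgroup G) (hZf : Finite Z) (hZc : ∀ z ∈ Z, ∀ g, z * g = g * z)
    (hZ2 : ∀ z ∈ Z, z * z = 1) (hx : ∀ x : G, x ^ N ∈ Z)
    (hfi : ∀ L : Subgroup G, L.FiniteIndex → Z ≤ L) {k : ℕ} (d : G → Fin k)
    (hd : ∀ x s : G, Odd (orderOf s) → s ≠ 1 → d (s * x) ≠ d x) : False := by
  classical
  obtain ⟨M, hM⟩ := hA
  -- a colour class of positive mean
  obtain ⟨i, hi⟩ : ∃ i : Fin k, 0 < M (Set.indicator (d ⁻¹' {i}) (fun _ => (1 : ℝ))) := by
    by_contra hcon
    push Not at hcon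
    have h1 : M (fun x => ∑ i : Fin k, Set.indicator (d ⁻¹' {i}) (fun _ => (1 : ℝ)) x) =
        ∑ i : Fin k, M (Set.indicator (d ⁻¹' {i}) (fun _ => (1 : ℝ))) :=
      hM.sum Finset.univ fun i _ => bdd_indicator _
    have h2 : (fun x => ∑ i : Fin k, Set.indicator (d ⁻¹' {i}) (fun _ => (1 : ℝ)) x) =
        fun _ => (1 : ℝ) := by
      funext x
      rw [Finset.sum_eq_single (d x)]
      · simp
      · intro b _ hb
        rw [Set.indicator_of_notMem]
        simpa using fun h => hb h.symm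
      · intro h; exact absurd (Finset.mem_univ _) h
    rw [h2, hM.one] at h1
    have h3 : ∑ i : Fin k, M (Set.indicator (d ⁻¹' {i}) (fun _ => (1 : ℝ))) ≤ 0 :=
      Finset.sum_nonpos fun i _ => hcon i
    linarith
  set A : Set G := d ⁻¹' {i} with hAdef
  obtain ⟨H, _, _, _, U, f, one, hU1, hU2, hU3, hone, honen, hof, hcor⟩ := exists_rep hM A
  have hU : IsRep U := ⟨hU1, hU2, hU3⟩
  set φ : G → ℝ := fun h => ⟪f, U h f⟫_ℝ with hφ
  have hφb : Bdd φ := hU.bdd f f
  have hφs : ∀ s : G, Odd (orderOf s) → s ≠ 1 → φ s = 0 := by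
    intro s hs hs1
    rw [hφ]
    simp only
    rw [hcor]
    have h1 : (fun x => Set.indicator A (fun _ => (1 : ℝ)) x *
        Set.indicator A (fun _ => (1 : ℝ)) (s⁻¹ * x)) = fun _ => 0 := by
      funext x
      by_cases hxA : x ∈ A
      · rw [Set.indicator_of_notMem (a := s⁻¹ * x), mul_zero]
        intro h2
        have h3 := hd (s⁻¹ * x) s hs hs1
        rw [mul_inv_cancel_left] at h3
        apply h3
        rw [hAdef] at hxA h2
        rw [Set.mem_preimage, Set.mem_singleton_iff] at hxA h2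
        rw [hxA, h2]
      · rw [Set.indicator_of_notMem hxA, zero_mul]
    rw [h1, hM.const]
  have hNpos : 0 < N := hN.pos
  have hexp : ∀ g : G, g ^ (2 * N) = 1 := by
    intro g
    rw [mul_comm, pow_mul, sq]
    exact hZ2 _ (hx g)
  have hzero : ∀ ζ ∈ Z, M (fun h => (φ (ζ⁻¹ * h) - φ h) * (φ (ζ⁻¹ * h) - φ h)) = 0 := by
    intro ζ hζ
    have h1 := hU.mean_zero hM f (n := 2 * N) (by omega) hexp ζ (hZc ζ hζ) (hZ2 ζ hζ)
      (fun L hL => hfi L hL hζ)
    have h2 : ∀ h, ⟪U ζ f - f, U h f⟫_ℝ = φ (ζ⁻¹ * h) - φ h := by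
      intro h
      rw [inner_sub_left, hU.inner_inv, ← hU.mul]
    simp only [h2] at h1
    exact h1
  have := hZf
  have := Fintype.ofFinite Z
  let ZF : Finset G := Finset.univ.image (fun z : Z => (z : G))
  have hZF : ∀ g, g ∈ ZF ↔ g ∈ Z := by
    intro g
    simp [ZF]
  have hbz : ∀ ζ ∈ ZF, Bdd (fun h => (φ (ζ⁻¹ * h) - φ h) * (φ (ζ⁻¹ * h) - φ h)) := by
    intro ζ _
    exact ((hφb.comp _).sub hφb).mul ((hφb.comp _).sub hφb)
  obtain ⟨C, hC⟩ := hφb.mul hφb
  have hpt : ∀ h, φ h * φ h ≤ (∑ ζ ∈ ZF, (φ (ζ⁻¹ * h) - φ h) * (φ (ζ⁻¹ * h) - φ h)) +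
      C * Set.indicator (ZF : Set G) (fun _ => (1 : ℝ)) h := by
    intro h
    have hsum : 0 ≤ ∑ ζ ∈ ZF, (φ (ζ⁻¹ * h) - φ h) * (φ (ζ⁻¹ * h) - φ h) :=
      Finset.sum_nonneg fun ζ _ => mul_self_nonneg _
    by_cases hh : h ∈ ZF
    · rw [Set.indicator_of_mem (by exact_mod_cast hh), mul_one]
      have := (abs_le.1 (hC h)).2
      linarith
    · rw [Set.indicator_of_notMem (by exact_mod_cast hh), mul_zero, add_zero]
      have hhZ : h ∉ Z := fun h1 => hh ((hZF h).2 h1)
      set ζ : G := h ^ N with hζ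
      have hζZ : ζ ∈ Z := hx h
      have hζh : ζ⁻¹ * h ≠ 1 := by
        intro h1
        apply hhZ
        have h2 : h = ζ := by
          have h3 := congrArg (fun t => ζ * t) h1
          simpa using h3
        rw [h2]
        exact hζZ
      have hpow : (ζ⁻¹ * h) ^ N = 1 := by
        have hc : Commute ζ⁻¹ h := by
          have h1 : Commute ζ h := hZc ζ hζZ h
          exact h1.inv_left
        rw [hc.mul_pow, ← hζ]
        obtain ⟨m, hm⟩ := hN
        have h2 : ζ ^ 2 = 1 := by rw [sq]; exact hZ2 ζ hζZ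
        rw [hm, pow_succ, pow_mul, inv_pow, h2, inv_one, one_pow, one_mul, inv_mul_cancel]
      have hodd : Odd (orderOf (ζ⁻¹ * h)) :=
        Odd.of_dvd_nat hN (orderOf_dvd_of_pow_eq_one hpow)
      have h0 := hφs _ hodd hζh
      have h1 := Finset.single_le_sum (f := fun ζ => (φ (ζ⁻¹ * h) - φ h) * (φ (ζ⁻¹ * h) - φ h))
        (fun ζ _ => mul_self_nonneg _) ((hZF ζ).2 hζZ)
      simp only [h0] at h1
      linarith
  have hsumzero : M (fun h => ∑ ζ ∈ ZF, (φ (ζ⁻¹ * h) - φ h) * (φ (ζ⁻¹ * h) - φ h)) = 0 := by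
    rw [hM.sum ZF hbz]
    exact Finset.sum_eq_zero fun ζ hζ => hzero ζ ((hZF ζ).1 hζ)
  have hle := hM.mono (hφb.mul hφb)
    ((Bdd.sum ZF hbz).add ((bdd_indicator (ZF : Set G)).smul C)) hpt
  rw [hM.add _ _ (Bdd.sum ZF hbz) ((bdd_indicator (ZF : Set G)).smul C), hsumzero,
    hM.smul _ _ (bdd_indicator _), hM.finite, mul_zero, add_zero] at hle
  have h1 := hM.sq_le hφb
  have h2 := hU.mean_ge hM f one hone honen
  rw [hof] at h2
  have h3 : 0 < M φ := lt_of_lt_of_le (by positivity) h2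
  have h4 : 0 < M φ ^ 2 := by positivity
  linarith

/-- A group of the special kind (tight, the central elements have square one) with a colouring
that separates `x` and `s * x`, `s ≠ 1` of odd order, is not amenable. -/
theorem not_amenable_of_tight {G : Type*} [Group G] (hT : Pool.Agent.Lib.MP_76c039_co.Tight G)
    (hZ2 : ∀ z ∈ Subgroup.center G, z * z = 1) {k : ℕ} (d : G → Fin k)
    (hd : ∀ x s : G, Odd (orderOf s) → s ≠ 1 → d (s * x) ≠ d x) : ¬ Amenable G := by
  classical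
  intro hA
  have hinf := hT.infinite
  obtain ⟨N, hN, hNc⟩ := hT.odd_exponent
  have hZf : ∀ P : Subgroup G, Finite ((Subgroup.center G ⊓ P : Subgroup G)) := by
    intro P
    exact (hT.finite_center.subset fun x hx => (Subgroup.mem_inf.1 hx).1).to_subtype
  -- an infinite subgroup with the least number of central elements
  let S : Set ℕ := {m | ∃ P : Subgroup G, Infinite P ∧
    Nat.card (Subgroup.center G ⊓ P : Subgroup G) = m}
  have hS : S.Nonempty := by
    refine ⟨_, ⊤, ?_, rfl⟩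
    exact Infinite.of_injective (fun g : G => (⟨g, Subgroup.mem_top g⟩ : (⊤ : Subgroup G)))
      (fun a b h => congrArg Subtype.val h)
  obtain ⟨P, hPinf, hPcard⟩ := Nat.sInf_mem hS
  have hmin : ∀ L : Subgroup G, Infinite L → L ≤ P → Subgroup.center G ⊓ P ≤ L := by
    intro L hL hLP
    have h1 : Nat.card (Subgroup.center G ⊓ P : Subgroup G) ≤
        Nat.card (Subgroup.center G ⊓ L : Subgroup G) := by
      rw [hPcard]
      exact Nat.sInf_le ⟨L, hL, rfl⟩
    have h2 : Subgroup.center G ⊓ L ≤ Subgroup.center G ⊓ P := inf_le_inf_left _ hLP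
    have h3 : Subgroup.center G ⊓ L = Subgroup.center G ⊓ P := by
      have := hZf P
      exact Subgroup.eq_of_le_of_card_ge h2 h1
    rw [← h3]
    exact inf_le_right
  -- the situation in `P`
  let Z : Subgroup P := (Subgroup.center G).subgroupOf P
  have hZm : ∀ x : P, x ∈ Z ↔ (x : G) ∈ Subgroup.center G := fun x => Subgroup.mem_subgroupOf
  have hZfin : Finite Z := by
    have := hZf P
    apply Finite.of_injective (fun x : Z =>
      (⟨((x : P) : G), Subgroup.mem_inf.2 ⟨(hZm x.1).1 x.2, x.1.2⟩⟩ :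
        (Subgroup.center G ⊓ P : Subgroup G)))
    intro x y hxy
    apply Subtype.ext
    apply Subtype.ext
    exact congrArg (fun t => (t : (Subgroup.center G ⊓ P : Subgroup G)).1) hxy
  have hdP : ∀ x s : P, Odd (orderOf s) → s ≠ 1 → d ((s * x : P) : G) ≠ d (x : G) := by
    intro x s hs hs1
    rw [Subgroup.coe_mul]
    apply hd
    · rwa [← Subgroup.orderOf_coe] at hs
    · intro h
      exact hs1 (Subtype.ext h)
  refine core_false (hA.subgroup P) hN Z hZfin ?_ ?_ ?_ ?_ (fun x : P => d (x : G)) hdP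
  · intro z hz g
    apply Subtype.ext
    have h1 := Subgroup.mem_center_iff.1 ((hZm z).1 hz) (g : G)
    simpa using h1.symm
  · intro z hz
    apply Subtype.ext
    simpa using hZ2 _ ((hZm z).1 hz)
  · intro x
    rw [hZm]
    simpa using hNc (x : G)
  · intro L hL
    have hLinf : Infinite L := by
      rw [← not_finite_iff_infinite]
      intro hfin
      have h1 : Finite P := by
        have h2 : Finite (P ⧸ L) := Subgroup.finite_quotient_of_finiteIndex
        exact Finite.of_equiv _ (Subgroup.groupEquivQuotientProdSubgroup (s := L)).symm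
      exact not_finite P
    have hL' : Infinite (L.map P.subtype) := by
      apply Infinite.of_injective (fun x : L => (⟨((x : P) : G), ⟨x, x.2, rfl⟩⟩ :
        L.map P.subtype))
      intro x y hxy
      apply Subtype.ext
      apply Subtype.ext
      exact congrArg (fun t => (t : L.map P.subtype).1) hxy
    have h3 := hmin (L.map P.subtype) hL' (by
      rintro _ ⟨x, _, rfl⟩
      exact x.2)
    intro z hz
    obtain ⟨y, hy, hyz⟩ := h3 (Subgroup.mem_inf.2 ⟨(hZm z).1 hz, z.2⟩)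
    have : y = z := Subtype.ext hyz
    rwa [← this]

open Pool.Agent.Lib.MP_76c039_co in
/-- Groups with an infinite amenable subgroup. -/
theorem pairOut_of_amenable {G : Type*} [Group G] (K : Subgroup G) (hK : Infinite K)
    (hA : Amenable K) : PairOut G := by
  by_contra hnp
  have hJ : {x : G | x * x = 1}.Finite := by
    by_contra h
    exact hnp (pairOut_of_infinite h)
  obtain ⟨M, hM, hexp⟩ : ∃ M : ℕ, 0 < M ∧ ∀ x : G, x ^ M = 1 := by
    by_contra hcon
    push Not at hcon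
    apply hnp
    apply pairOut_of_unbounded
    intro N
    obtain ⟨x, hx⟩ := hcon (Nat.factorial N) (Nat.factorial_pos N)
    refine ⟨x, fun i hi hiN h1 => hx ?_⟩
    obtain ⟨m, hm⟩ := Nat.dvd_factorial hi hiN
    rw [hm, pow_mul, h1, one_pow]
  obtain ⟨k, c, hc⟩ := exists_good hnp
  obtain ⟨H, hHK, hT⟩ := exists_tight hc hJ M hM hexp K hK
  have hnpH : ¬ PairOut H := fun h => hnp (PairOut.of_subgroup H h)
  obtain ⟨h1, h2, -, k', d, hd⟩ := tight_quotient hT hnpH
  have hAH : Amenable H := (hA.subgroup (H.subgroupOf K)).equiv (Subgroup.subgroupOfEquivOfLe hHK)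
  exact not_amenable_of_tight h1 h2 d hd (hAH.quotient _)

end Pool.Agent.Lib.MP_76c039_coAM
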