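import Pool.Agent.Lib.MP_76c039_coAM.Mean

set_option autoImplicit false

/-!
The unitary representation of a group on the Hilbert space of an invariant mean.
-/

namespace Pool.Agent.Lib.MP_76c039_coAM

open scoped InnerProductSpace

/-- The space of bounded functions. -/
def BS (G : Type*) : Submodule ℝ (G → ℝ) where
  carrier := {f | Bdd f}
  add_mem' := fun hf hg => Bdd.add hf hg
  zero_mem' := bdd_const 0
  smul_mem' := fun r _ hf => Bdd.smul r hf

/-- The space of bounded functions, without topology. -/
def BF (G : Type*) : Type _ := BS G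

instance (G : Type*) : AddCommGroup (BF G) := inferInstanceAs (AddCommGroup (BS G))

instance (G : Type*) : Module ℝ (BF G) := inferInstanceAs (Module ℝ (BS G))

universe u

variable {G : Type u} [Group G] {M : (G → ℝ) → ℝ}

/-- The inner product given by a mean. -/
@[instance_reducible]
noncomputable def core (hM : IsInvMean G M) : PreInnerProductSpace.Core ℝ (BF G) where
  inner f g := M (fun x => f.1 x * g.1 x)
  conj_inner_symm f g := by
    simp only [conj_trivial]
    congr 1
    funext x
    ring
  re_inner_nonneg f := hM.nonneg _ (f.2.mul f.2) fun x => mul_self_nonneg _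
  add_left f g h := by
    change M (fun x => (f.1 x + g.1 x) * h.1 x) = _
    rw [← hM.add _ _ (f.2.mul h.2) (g.2.mul h.2)]
    congr 1
    funext x
    ring
  smul_left f g r := by
    change M (fun x => (r * f.1 x) * g.1 x) = _
    simp only [conj_trivial]
    rw [← hM.smul r _ (f.2.mul g.2)]
    congr 1
    funext x
    ring

/-- Translation of bounded functions. -/
def tr (g : G) : BF G →ₗ[ℝ] BF G where
  toFun f := ⟨fun x => f.1 (g⁻¹ * x), f.2.comp _⟩
  map_add' _ _ := rfl
  map_smul' _ _ := rfl

theorem exists_rep (hM : IsInvMean G M) (A : Set G) :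
    ∃ (H : Type u) (_ : NormedAddCommGroup H) (_ : InnerProductSpace ℝ H) (_ : CompleteSpace H)
      (U : G → H →L[ℝ] H) (f one : H),
      (∀ g v, ‖U g v‖ = ‖v‖) ∧ (∀ v, U 1 v = v) ∧ (∀ g h v, U (g * h) v = U g (U h v)) ∧
      (∀ g, U g one = one) ∧ ‖one‖ = 1 ∧
      ⟪one, f⟫_ℝ = M (Set.indicator A (fun _ => (1 : ℝ))) ∧
      ∀ g, ⟪f, U g f⟫_ℝ =
        M (fun x => Set.indicator A (fun _ => (1 : ℝ)) x *
          Set.indicator A (fun _ => (1 : ℝ)) (g⁻¹ * x)) := by
  let c : PreInnerProductSpace.Core ℝ (BF G) := core hM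
  let : SeminormedAddCommGroup (BF G) :=
    @InnerProductSpace.Core.toSeminormedAddCommGroup ℝ (BF G) _ _ _ c
  let ips : InnerProductSpace ℝ (BF G) := InnerProductSpace.ofCore c
  have hin : ∀ f g : BF G, ⟪f, g⟫_ℝ = M (fun x => f.1 x * g.1 x) := fun f g => rfl
  have hnorm : ∀ (g : G) (f : BF G), ‖tr g f‖ = ‖f‖ := by
    intro g f
    have h1 : ‖tr g f‖ ^ 2 = ‖f‖ ^ 2 := by
      rw [← real_inner_self_eq_norm_sq, ← real_inner_self_eq_norm_sq, hin, hin]
      exact hM.inv g⁻¹ (fun x => f.1 x * f.1 x) (f.2.mul f.2)
    exact (sq_eq_sq₀ (norm_nonneg _) (norm_nonneg _)).1 h1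
  let T : G → NormedAddGroupHom (BF G) (BF G) := fun g =>
    (tr g).toAddMonoidHom.mkNormedAddGroupHom 1 (fun f => by
      rw [one_mul]; exact (hnorm g f).le)
  have hT : ∀ g f, T g f = tr g f := fun g f => rfl
  let U : G → UniformSpace.Completion (BF G) →L[ℝ] UniformSpace.Completion (BF G) := fun g =>
    (T g).completion.toAddMonoidHom.toRealLinearMap (T g).completion.continuous
  have hU : ∀ (g : G) (f : BF G), U g (f : UniformSpace.Completion (BF G)) =
      ((tr g f : BF G) : UniformSpace.Completion (BF G)) := by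
    intro g f
    exact (T g).completion_coe f
  let fA : BF G := ⟨Set.indicator A (fun _ => (1 : ℝ)), bdd_indicator A⟩
  let f1 : BF G := ⟨fun _ => (1 : ℝ), bdd_const 1⟩
  refine ⟨UniformSpace.Completion (BF G), inferInstance, inferInstance, inferInstance, U,
    (fA : UniformSpace.Completion (BF G)), (f1 : UniformSpace.Completion (BF G)),
    ?_, ?_, ?_, ?_, ?_, ?_, ?_⟩
  · intro g v
    induction v using UniformSpace.Completion.induction_on with
    | hp => exact isClosed_eq (U g).continuous.norm continuous_norm
    | ih f =>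
      rw [hU, UniformSpace.Completion.norm_coe, UniformSpace.Completion.norm_coe, hnorm]
  · intro v
    induction v using UniformSpace.Completion.induction_on with
    | hp => exact isClosed_eq (U 1).continuous continuous_id
    | ih f =>
      rw [hU]
      congr 1
      apply Subtype.ext
      funext x
      change f.1 (1⁻¹ * x) = f.1 x
      simp
  · intro g h v
    induction v using UniformSpace.Completion.induction_on with
    | hp => exact isClosed_eq (U (g * h)).continuous ((U g).continuous.comp (U h).continuous)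
    | ih f =>
      rw [hU, hU, hU]
      congr 1
      apply Subtype.ext
      funext x
      change f.1 ((g * h)⁻¹ * x) = f.1 (h⁻¹ * (g⁻¹ * x))
      rw [mul_inv_rev, mul_assoc]
  · intro g
    rw [hU]
    rfl
  · rw [UniformSpace.Completion.norm_coe]
    have h1 : ‖f1‖ ^ 2 = 1 := by
      rw [← real_inner_self_eq_norm_sq, hin]
      simpa [f1] using hM.one
    have h2 := norm_nonneg f1
    nlinarith
  · rw [UniformSpace.Completion.inner_coe, hin]
    simp [f1, fA]
  · intro g
    rw [hU, UniformSpace.Completion.inner_coe, hin]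
    rfl

end Pool.Agent.Lib.MP_76c039_coAM
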