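import Mathlib

set_option autoImplicit false

/-!
Invariant means on bounded functions, and the unitary representation of a group on the Hilbert
space of an invariant mean.
-/

namespace Pool.Agent.Lib.MP_76c039_coAM

open scoped InnerProductSpace

/-- Bounded real functions. -/
def Bdd {α : Type*} (f : α → ℝ) : Prop := ∃ C : ℝ, ∀ x, |f x| ≤ C

/-- `M` is a left-invariant mean on the bounded real functions on `G`. -/
structure IsInvMean (G : Type*) [Group G] (M : (G → ℝ) → ℝ) : Prop where
  add : ∀ f g : G → ℝ, Bdd f → Bdd g → M (fun x => f x + g x) = M f + M g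
  smul : ∀ (r : ℝ) (f : G → ℝ), Bdd f → M (fun x => r * f x) = r * M f
  nonneg : ∀ f : G → ℝ, Bdd f → (∀ x, 0 ≤ f x) → 0 ≤ M f
  one : M (fun _ => 1) = 1
  inv : ∀ (g : G) (f : G → ℝ), Bdd f → M (fun x => f (g * x)) = M f

/-- `G` has a left-invariant mean on the bounded functions. -/
def Amenable (G : Type*) [Group G] : Prop := ∃ M : (G → ℝ) → ℝ, IsInvMean G M

section bdd

variable {α β : Type*}

theorem Bdd.add {f g : α → ℝ} (hf : Bdd f) (hg : Bdd g) : Bdd (fun x => f x + g x) := by
  obtain ⟨C, hC⟩ := hf
  obtain ⟨D, hD⟩ := hg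
  exact ⟨C + D, fun x => (abs_add_le _ _).trans (add_le_add (hC x) (hD x))⟩

theorem Bdd.mul {f g : α → ℝ} (hf : Bdd f) (hg : Bdd g) : Bdd (fun x => f x * g x) := by
  obtain ⟨C, hC⟩ := hf
  obtain ⟨D, hD⟩ := hg
  refine ⟨C * D, fun x => ?_⟩
  rw [abs_mul]
  exact mul_le_mul (hC x) (hD x) (abs_nonneg _) ((abs_nonneg _).trans (hC x))

theorem bdd_const (c : ℝ) : Bdd (fun _ : α => c) := ⟨|c|, fun _ => le_rfl⟩

theorem Bdd.smul {f : α → ℝ} (r : ℝ) (hf : Bdd f) : Bdd (fun x => r * f x) :=
  (bdd_const r).mul hf

theorem Bdd.neg {f : α → ℝ} (hf : Bdd f) : Bdd (fun x => -f x) := by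
  obtain ⟨C, hC⟩ := hf
  exact ⟨C, fun x => by rw [abs_neg]; exact hC x⟩

theorem Bdd.sub {f g : α → ℝ} (hf : Bdd f) (hg : Bdd g) : Bdd (fun x => f x - g x) := by
  simpa only [sub_eq_add_neg] using hf.add hg.neg

theorem Bdd.comp {f : α → ℝ} (hf : Bdd f) (u : β → α) : Bdd (fun x => f (u x)) := by
  obtain ⟨C, hC⟩ := hf
  exact ⟨C, fun x => hC _⟩

theorem Bdd.sum {ι : Type*} (s : Finset ι) {f : ι → α → ℝ} (hf : ∀ i ∈ s, Bdd (f i)) :
    Bdd (fun x => ∑ i ∈ s, f i x) := by
  classical
  induction s using Finset.induction_on with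
  | empty => simpa using bdd_const (α := α) 0
  | insert a s ha ih =>
    simp only [Finset.sum_insert ha]
    exact (hf a (Finset.mem_insert_self a s)).add
      (ih fun i hi => hf i (Finset.mem_insert_of_mem hi))

theorem bdd_indicator (A : Set α) : Bdd (Set.indicator A (fun _ => (1 : ℝ))) := by
  refine ⟨1, fun x => ?_⟩
  by_cases h : x ∈ A <;> simp [h]

end bdd

section mean

variable {G : Type*} [Group G] {M : (G → ℝ) → ℝ}

theorem IsInvMean.const (hM : IsInvMean G M) (c : ℝ) : M (fun _ => c) = c := by
  have h := hM.smul c (fun _ => 1) (bdd_const 1)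
  simpa [hM.one] using h

theorem IsInvMean.neg (hM : IsInvMean G M) {f : G → ℝ} (hf : Bdd f) :
    M (fun x => -f x) = -M f := by
  have h := hM.smul (-1) f hf
  simpa using h

theorem IsInvMean.sub (hM : IsInvMean G M) {f g : G → ℝ} (hf : Bdd f) (hg : Bdd g) :
    M (fun x => f x - g x) = M f - M g := by
  have h := hM.add f (fun x => -g x) hf hg.neg
  rw [hM.neg hg] at h
  simpa only [sub_eq_add_neg] using h

theorem IsInvMean.mono (hM : IsInvMean G M) {f g : G → ℝ} (hf : Bdd f) (hg : Bdd g)
    (h : ∀ x, f x ≤ g x) : M f ≤ M g := by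
  have h1 := hM.nonneg (fun x => g x - f x) (hg.sub hf) (fun x => sub_nonneg.2 (h x))
  rw [hM.sub hg hf] at h1
  linarith

theorem IsInvMean.sum (hM : IsInvMean G M) {ι : Type*} (s : Finset ι) {f : ι → G → ℝ}
    (hf : ∀ i ∈ s, Bdd (f i)) : M (fun x => ∑ i ∈ s, f i x) = ∑ i ∈ s, M (f i) := by
  classical
  induction s using Finset.induction_on with
  | empty => simpa using hM.const 0
  | insert a s ha ih =>
    simp only [Finset.sum_insert ha]
    rw [hM.add _ _ (hf a (Finset.mem_insert_self a s))
      (Bdd.sum s fun i hi => hf i (Finset.mem_insert_of_mem hi)),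
      ih fun i hi => hf i (Finset.mem_insert_of_mem hi)]

/-- Cauchy-Schwarz for a mean. -/
theorem IsInvMean.sq_mul_le (hM : IsInvMean G M) {f g : G → ℝ} (hf : Bdd f) (hg : Bdd g) :
    M (fun x => f x * g x) ^ 2 ≤ M (fun x => f x * f x) * M (fun x => g x * g x) := by
  have key : ∀ a b : ℝ, 0 ≤ a * a * M (fun x => f x * f x) + 2 * a * b * M (fun x => f x * g x)
      + b * b * M (fun x => g x * g x) := by
    intro a b
    have h0 := hM.nonneg (fun x => (a * f x + b * g x) * (a * f x + b * g x))
      (((hf.smul a).add (hg.smul b)).mul ((hf.smul a).add (hg.smul b)))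
      (fun x => mul_self_nonneg _)
    have h1 : (fun x => (a * f x + b * g x) * (a * f x + b * g x)) =
        fun x => (a * a * (f x * f x) + 2 * a * b * (f x * g x)) + b * b * (g x * g x) := by
      funext x; ring
    rw [h1, hM.add _ _ (((hf.mul hf).smul _).add ((hf.mul hg).smul _)) ((hg.mul hg).smul _),
      hM.add _ _ ((hf.mul hf).smul _) ((hf.mul hg).smul _), hM.smul _ _ (hf.mul hf),
      hM.smul _ _ (hf.mul hg), hM.smul _ _ (hg.mul hg)] at h0
    exact h0
  set X := M (fun x => f x * f x)
  set Y := M (fun x => f x * g x)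
  set W := M (fun x => g x * g x)
  have hW : 0 ≤ W := hM.nonneg _ (hg.mul hg) fun x => mul_self_nonneg _
  have hX : 0 ≤ X := hM.nonneg _ (hf.mul hf) fun x => mul_self_nonneg _
  rcases hW.eq_or_lt with h0 | hpos
  · -- W = 0
    have hY : Y = 0 := by
      by_contra hne
      have h1 := key 1 (-(X + 1) / (2 * Y))
      rw [← h0] at h1
      have h2 : 2 * 1 * (-(X + 1) / (2 * Y)) * Y = -(X + 1) := by
        field_simp
      rw [h2] at h1
      linarith
    rw [hY, ← h0]
    simp
  · have h1 := key W (-Y)
    nlinarith [h1, hpos]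

theorem IsInvMean.sq_le (hM : IsInvMean G M) {f : G → ℝ} (hf : Bdd f) :
    M f ^ 2 ≤ M (fun x => f x * f x) := by
  have h := hM.sq_mul_le hf (bdd_const 1)
  simpa [hM.one] using h

/-- In an infinite group the mean of the indicator function of a finite set is zero. -/
theorem IsInvMean.finite [Infinite G] (hM : IsInvMean G M) (F : Finset G) :
    M (Set.indicator (F : Set G) (fun _ => (1 : ℝ))) = 0 := by
  classical
  have hsing : ∀ a : G, M (Set.indicator {a} (fun _ => (1 : ℝ))) = 0 := by
    intro a
    have heq : ∀ b : G, M (Set.indicator {b} (fun _ => (1 : ℝ))) =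
        M (Set.indicator {a} (fun _ => (1 : ℝ))) := by
      intro b
      have h := hM.inv (a * b⁻¹) (Set.indicator {a} (fun _ => (1 : ℝ))) (bdd_indicator _)
      rw [← h]
      congr 1
      funext x
      by_cases hx : x = b
      · subst hx; simp
      · rw [Set.indicator_of_notMem (by simpa using hx), Set.indicator_of_notMem]
        simp only [Set.mem_singleton_iff]
        intro h2
        apply hx
        have : a * b⁻¹ * x = a * b⁻¹ * b := by simpa using h2
        exact mul_left_cancel this
    have hnn : 0 ≤ M (Set.indicator {a} (fun _ => (1 : ℝ))) :=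
      hM.nonneg _ (bdd_indicator _) fun x => Set.indicator_nonneg (fun _ _ => zero_le_one) x
    have hle : ∀ n : ℕ, (n : ℝ) * M (Set.indicator {a} (fun _ => (1 : ℝ))) ≤ 1 := by
      intro n
      obtain ⟨s, hs⟩ := Infinite.exists_subset_card_eq G n
      have h1 : M (fun x => ∑ b ∈ s, Set.indicator {b} (fun _ => (1 : ℝ)) x) =
          ∑ b ∈ s, M (Set.indicator {b} (fun _ => (1 : ℝ))) :=
        hM.sum s fun i _ => bdd_indicator _
      have h2 : M (fun x => ∑ b ∈ s, Set.indicator {b} (fun _ => (1 : ℝ)) x) ≤ M (fun _ => 1) := by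
        apply hM.mono (Bdd.sum s fun i _ => bdd_indicator _) (bdd_const 1)
        intro x
        by_cases hx : x ∈ s
        · rw [Finset.sum_eq_single x]
          · simp
          · intro b _ hb
            rw [Set.indicator_of_notMem]
            simpa using fun h => hb h.symm
          · intro h; exact absurd hx h
        · rw [Finset.sum_eq_zero]
          · exact zero_le_one
          · intro b hb
            rw [Set.indicator_of_notMem]
            simp only [Set.mem_singleton_iff]
            rintro rfl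
            exact hx hb
      rw [h1, Finset.sum_congr rfl fun b _ => heq b, Finset.sum_const, hs, hM.one] at h2
      simpa using h2
    by_contra hne
    have hpos : 0 < M (Set.indicator {a} (fun _ => (1 : ℝ))) := lt_of_le_of_ne hnn (Ne.symm hne)
    obtain ⟨n, hn⟩ := exists_nat_gt (1 / M (Set.indicator {a} (fun _ => (1 : ℝ))))
    have h3 := hle n
    rw [div_lt_iff₀ hpos] at hn
    linarith
  have h1 : Set.indicator (F : Set G) (fun _ => (1 : ℝ)) =
      fun x => ∑ b ∈ F, Set.indicator {b} (fun _ => (1 : ℝ)) x := by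
    funext x
    by_cases hx : x ∈ F
    · rw [Finset.sum_eq_single x]
      · simp [hx]
      · intro b _ hb
        rw [Set.indicator_of_notMem]
        simpa using fun h => hb h.symm
      · intro h; exact absurd hx h
    · rw [Set.indicator_of_notMem (by simpa using hx), Finset.sum_eq_zero]
      intro b hb
      rw [Set.indicator_of_notMem]
      simp only [Set.mem_singleton_iff]
      rintro rfl
      exact hx hb
  rw [h1, hM.sum F fun i _ => bdd_indicator _, Finset.sum_eq_zero fun b _ => hsing b]

end mean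

section closure

variable {G : Type*} [Group G]

/-- Subgroups of amenable groups are amenable. -/
theorem Amenable.subgroup (h : Amenable G) (H : Subgroup G) : Amenable H := by
  obtain ⟨M, hM⟩ := h
  -- an `H`-equivariant map `G → H`
  let t : Quotient (QuotientGroup.rightRel H) → G := fun q => Quotient.out q
  have ht : ∀ g : G, g * (t (Quotient.mk _ g))⁻¹ ∈ H := by
    intro g
    have h1 : (QuotientGroup.rightRel H) (t (Quotient.mk _ g)) g := Quotient.mk_out g
    exact QuotientGroup.rightRel_apply.1 h1
  let r : G → H := fun g => ⟨g * (t (Quotient.mk _ g))⁻¹, ht g⟩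
  have hr : ∀ (a : H) (g : G), r (a * g) = a * r g := by
    intro a g
    have h1 : (Quotient.mk (QuotientGroup.rightRel H) (a * g)) =
        Quotient.mk (QuotientGroup.rightRel H) g := by
      apply Quotient.sound
      apply QuotientGroup.rightRel_apply.2
      simp
    apply Subtype.ext
    change (a : G) * g * (t (Quotient.mk (QuotientGroup.rightRel H) ((a : G) * g)))⁻¹ =
      (a : G) * (g * (t (Quotient.mk (QuotientGroup.rightRel H) g))⁻¹)
    rw [h1, mul_assoc]
  refine ⟨fun f => M (fun g => f (r g)), ?_, ?_, ?_, ?_, ?_⟩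
  · intro f g hf hg
    exact hM.add _ _ (hf.comp r) (hg.comp r)
  · intro c f hf
    exact hM.smul c _ (hf.comp r)
  · intro f hf h0
    exact hM.nonneg _ (hf.comp r) fun x => h0 _
  · exact hM.one
  · intro a f hf
    have h1 := hM.inv (a : G) (fun g => f (r g)) (hf.comp r)
    simp only [hr] at h1
    exact h1

/-- Quotients of amenable groups are amenable. -/
theorem Amenable.quotient (h : Amenable G) (N : Subgroup G) [N.Normal] : Amenable (G ⧸ N) := by
  obtain ⟨M, hM⟩ := h
  refine ⟨fun f => M (fun g => f (g : G ⧸ N)), ?_, ?_, ?_, ?_, ?_⟩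
  · intro f g hf hg
    exact hM.add _ _ (hf.comp _) (hg.comp _)
  · intro c f hf
    exact hM.smul c _ (hf.comp _)
  · intro f hf h0
    exact hM.nonneg _ (hf.comp _) fun x => h0 _
  · exact hM.one
  · intro a f hf
    obtain ⟨b, rfl⟩ := QuotientGroup.mk_surjective a
    exact hM.inv b (fun g => f (g : G ⧸ N)) (hf.comp _)

/-- Amenability is invariant under isomorphisms. -/
theorem Amenable.equiv {G' : Type*} [Group G'] (h : Amenable G) (e : G ≃* G') : Amenable G' := by
  obtain ⟨M, hM⟩ := h
  refine ⟨fun f => M (fun g => f (e g)), ?_, ?_, ?_, ?_, ?_⟩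
  · intro f g hf hg
    exact hM.add _ _ (hf.comp _) (hg.comp _)
  · intro c f hf
    exact hM.smul c _ (hf.comp _)
  · intro f hf h0
    exact hM.nonneg _ (hf.comp _) fun x => h0 _
  · exact hM.one
  · intro a f hf
    have h1 := hM.inv (e.symm a) (fun g => f (e g)) (hf.comp _)
    simpa using h1

end closure

end Pool.Agent.Lib.MP_76c039_coAM
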