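import Pool.Agent.Lib.MP_76c039_coAM.Mean

set_option autoImplicit false

/-!
The trace class operator which is the mean of the projections to the translates of a vector.
-/

namespace Pool.Agent.Lib.MP_76c039_coAM

open scoped InnerProductSpace

universe u

variable {G : Type*} [Group G] {M : (G → ℝ) → ℝ}
variable {H : Type u} [NormedAddCommGroup H] [InnerProductSpace ℝ H]

/-- A unitary representation. -/
structure IsRep (U : G → H →L[ℝ] H) : Prop where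
  norm : ∀ g v, ‖U g v‖ = ‖v‖
  one : ∀ v, U 1 v = v
  mul : ∀ g h v, U (g * h) v = U g (U h v)

theorem IsRep.inner {U : G → H →L[ℝ] H} (hU : IsRep U) (g : G) (v w : H) :
    ⟪U g v, U g w⟫_ℝ = ⟪v, w⟫_ℝ :=
  (LinearMap.norm_map_iff_inner_map_map (U g)).1 (hU.norm g) v w

theorem IsRep.inner_inv {U : G → H →L[ℝ] H} (hU : IsRep U) (g : G) (v w : H) :
    ⟪U g v, w⟫_ℝ = ⟪v, U g⁻¹ w⟫_ℝ := by
  have h1 : w = U g (U g⁻¹ w) := by rw [← hU.mul, mul_inv_cancel, hU.one]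
  conv_lhs => rw [h1]
  exact hU.inner g _ _

theorem IsRep.bdd {U : G → H →L[ℝ] H} (hU : IsRep U) (v f : H) :
    Bdd (fun h : G => ⟪v, U h f⟫_ℝ) :=
  ⟨‖v‖ * ‖f‖, fun h => (abs_real_inner_le_norm _ _).trans (by rw [hU.norm])⟩

theorem IsRep.mean_le {U : G → H →L[ℝ] H} (hU : IsRep U) (hM : IsInvMean G M) (v w f : H) :
    |M (fun h => ⟪v, U h f⟫_ℝ * ⟪w, U h f⟫_ℝ)| ≤ ‖f‖ ^ 2 * ‖v‖ * ‖w‖ := by
  have hb := (hU.bdd v f).mul (hU.bdd w f)
  have hle : ∀ h : G, |⟪v, U h f⟫_ℝ * ⟪w, U h f⟫_ℝ| ≤ ‖f‖ ^ 2 * ‖v‖ * ‖w‖ := by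
    intro h
    rw [abs_mul]
    have h1 : |⟪v, U h f⟫_ℝ| ≤ ‖v‖ * ‖f‖ := (abs_real_inner_le_norm _ _).trans (by rw [hU.norm])
    have h2 : |⟪w, U h f⟫_ℝ| ≤ ‖w‖ * ‖f‖ := (abs_real_inner_le_norm _ _).trans (by rw [hU.norm])
    calc |⟪v, U h f⟫_ℝ| * |⟪w, U h f⟫_ℝ| ≤ (‖v‖ * ‖f‖) * (‖w‖ * ‖f‖) :=
          mul_le_mul h1 h2 (abs_nonneg _) (by positivity)
      _ = ‖f‖ ^ 2 * ‖v‖ * ‖w‖ := by ring
  rw [abs_le]
  constructor
  · have h1 := hM.mono (bdd_const (-(‖f‖ ^ 2 * ‖v‖ * ‖w‖))) hb fun h => (abs_le.1 (hle h)).1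
    rwa [hM.const] at h1
  · have h1 := hM.mono hb (bdd_const (‖f‖ ^ 2 * ‖v‖ * ‖w‖)) fun h => (abs_le.1 (hle h)).2
    rwa [hM.const] at h1

/-- The operator `T`. -/
theorem exists_operator [CompleteSpace H] {U : G → H →L[ℝ] H} (hU : IsRep U)
    (hM : IsInvMean G M) (f : H) :
    ∃ T : H →L[ℝ] H, ∀ v w, ⟪T v, w⟫_ℝ = M (fun h => ⟪v, U h f⟫_ℝ * ⟪w, U h f⟫_ℝ) := by
  let B : H →ₛₗ[starRingEnd ℝ] H →ₗ[ℝ] ℝ :=
    LinearMap.mk₂'ₛₗ (starRingEnd ℝ) (RingHom.id ℝ)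
      (fun v w => M (fun h => ⟪v, U h f⟫_ℝ * ⟪w, U h f⟫_ℝ))
      (by
        intro v₁ v₂ w
        rw [← hM.add _ _ ((hU.bdd v₁ f).mul (hU.bdd w f)) ((hU.bdd v₂ f).mul (hU.bdd w f))]
        congr 1
        funext h
        rw [inner_add_left, add_mul])
      (by
        intro c v w
        simp only [conj_trivial, smul_eq_mul]
        rw [← hM.smul c _ ((hU.bdd v f).mul (hU.bdd w f))]
        congr 1
        funext h
        rw [real_inner_smul_left, mul_assoc])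
      (by
        intro v w₁ w₂
        rw [← hM.add _ _ ((hU.bdd v f).mul (hU.bdd w₁ f)) ((hU.bdd v f).mul (hU.bdd w₂ f))]
        congr 1
        funext h
        rw [inner_add_left, mul_add])
      (by
        intro c v w
        simp only [RingHom.id_apply, smul_eq_mul]
        rw [← hM.smul c _ ((hU.bdd v f).mul (hU.bdd w f))]
        congr 1
        funext h
        rw [real_inner_smul_left]
        ring)
  let B' : H →L⋆[ℝ] H →L[ℝ] ℝ := B.mkContinuous₂ (‖f‖ ^ 2) (by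
    intro v w
    exact hU.mean_le hM v w f)
  refine ⟨InnerProductSpace.continuousLinearMapOfBilin B', fun v w => ?_⟩
  rw [InnerProductSpace.continuousLinearMapOfBilin_apply]
  rfl

/-- The trace of the operator is bounded. -/
theorem IsRep.trace_le {U : G → H →L[ℝ] H} (hU : IsRep U) (hM : IsInvMean G M) (f : H) {n : ℕ}
    (e : Fin n → H) (he : Orthonormal ℝ e) :
    ∑ i, M (fun h => ⟪e i, U h f⟫_ℝ * ⟪e i, U h f⟫_ℝ) ≤ ‖f‖ ^ 2 := by
  have h1 : M (fun h => ∑ i, ⟪e i, U h f⟫_ℝ * ⟪e i, U h f⟫_ℝ) =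
      ∑ i, M (fun h => ⟪e i, U h f⟫_ℝ * ⟪e i, U h f⟫_ℝ) :=
    hM.sum Finset.univ fun i _ => (hU.bdd (e i) f).mul (hU.bdd (e i) f)
  rw [← h1]
  have h2 := hM.mono (Bdd.sum Finset.univ fun i _ => (hU.bdd (e i) f).mul (hU.bdd (e i) f))
    (bdd_const (‖f‖ ^ 2)) (fun h => by
      have h3 := he.sum_inner_products_le (x := U h f) (s := Finset.univ)
      rw [hU.norm] at h3
      calc ∑ i, ⟪e i, U h f⟫_ℝ * ⟪e i, U h f⟫_ℝ = ∑ i, ‖⟪e i, U h f⟫_ℝ‖ ^ 2 := by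
            refine Finset.sum_congr rfl fun i _ => ?_
            rw [Real.norm_eq_abs, sq_abs, sq]
        _ ≤ ‖f‖ ^ 2 := h3)
  rwa [hM.const] at h2

/-- Outside a finite-dimensional subspace the quadratic form is small. -/
theorem IsRep.exists_finite {U : G → H →L[ℝ] H} (hU : IsRep U) (hM : IsInvMean G M) (f : H)
    {δ : ℝ} (hδ : 0 < δ) : ∃ E : Submodule ℝ H, FiniteDimensional ℝ E ∧
      ∀ v ∈ Eᗮ, M (fun h => ⟪v, U h f⟫_ℝ * ⟪v, U h f⟫_ℝ) ≤ δ * ‖v‖ ^ 2 := by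
  classical
  let Q : H → ℝ := fun v => M (fun h => ⟪v, U h f⟫_ℝ * ⟪v, U h f⟫_ℝ)
  let S : Set ℕ := {n | ∃ e : Fin n → H, Orthonormal ℝ e ∧ ∀ i, δ < Q (e i)}
  have hS0 : 0 ∈ S := ⟨Fin.elim0, ⟨fun i => i.elim0, fun i => i.elim0⟩, fun i => i.elim0⟩
  have hSb : ∀ n ∈ S, (n : ℝ) ≤ ‖f‖ ^ 2 / δ := by
    rintro n ⟨e, he, hQ⟩
    rw [le_div_iff₀ hδ]
    have h1 := hU.trace_le hM f e he
    have h2 : ∑ _i : Fin n, δ ≤ ∑ i, Q (e i) := Finset.sum_le_sum fun i _ => (hQ i).le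
    rw [Finset.sum_const, Finset.card_univ, Fintype.card_fin, nsmul_eq_mul] at h2
    exact h2.trans h1
  have hSfin : S.Finite := by
    apply (Set.finite_Iic ⌈‖f‖ ^ 2 / δ⌉₊).subset
    intro n hn
    exact Nat.cast_le.1 ((hSb n hn).trans (Nat.le_ceil _))
  obtain ⟨n, hn, hmax⟩ := hSfin.exists_maximal ⟨0, hS0⟩
  obtain ⟨e, he, hQ⟩ := hn
  refine ⟨Submodule.span ℝ (Set.range e), FiniteDimensional.span_of_finite ℝ (Set.finite_range e),
    fun v hv => ?_⟩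
  by_contra hcon
  rw [not_le] at hcon
  have hv0 : v ≠ 0 := by
    rintro rfl
    simp [hM.const] at hcon
  have hvn : 0 < ‖v‖ := norm_pos_iff.2 hv0
  let w : H := ‖v‖⁻¹ • v
  have hw1 : ‖w‖ = 1 := by
    simp only [w, norm_smul, norm_inv, norm_norm]
    exact inv_mul_cancel₀ hvn.ne'
  have hwe : ∀ i, ⟪e i, w⟫_ℝ = 0 := by
    intro i
    have h1 : ⟪e i, v⟫_ℝ = 0 := hv (e i) (Submodule.subset_span ⟨i, rfl⟩)
    simp only [w]
    rw [inner_smul_right, h1, mul_zero]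
  have hQw : δ < Q w := by
    have h1 : Q w = (‖v‖⁻¹) ^ 2 * Q v := by
      simp only [Q]
      rw [← hM.smul _ _ ((hU.bdd v f).mul (hU.bdd v f))]
      congr 1
      funext h
      simp only [w, real_inner_smul_left]
      ring
    rw [h1]
    have h2 : δ = (‖v‖⁻¹) ^ 2 * (δ * ‖v‖ ^ 2) := by
      field_simp
    rw [h2]
    exact mul_lt_mul_of_pos_left hcon (by positivity)
  have hmem : n + 1 ∈ S := by
    refine ⟨Fin.cons w e, ?_, ?_⟩
    · rw [orthonormal_iff_ite]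
      intro i j
      refine Fin.cases ?_ (fun i => ?_) i <;> refine Fin.cases ?_ (fun j => ?_) j
      · simp [hw1]
      · rw [Fin.cons_zero, Fin.cons_succ, real_inner_comm, hwe,
          if_neg (Fin.succ_ne_zero j).symm]
      · rw [Fin.cons_zero, Fin.cons_succ, hwe, if_neg (Fin.succ_ne_zero i)]
      · rw [Fin.cons_succ, Fin.cons_succ, orthonormal_iff_ite.1 he i j]
        simp [Fin.succ_inj]
    · intro i
      refine Fin.cases ?_ (fun i => ?_) i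
      · simpa using hQw
      · simpa using hQ i
  have h3 := hmax hmem (Nat.le_succ n)
  omega

/-- The operator is compact. -/
theorem IsRep.compact [CompleteSpace H] {U : G → H →L[ℝ] H} (hU : IsRep U)
    (hM : IsInvMean G M) (f : H) (T : H →L[ℝ] H)
    (hT : ∀ v w, ⟪T v, w⟫_ℝ = M (fun h => ⟪v, U h f⟫_ℝ * ⟪w, U h f⟫_ℝ)) :
    IsCompactOperator T := by
  have hcl : IsClosed {T : H →L[ℝ] H | IsCompactOperator T} :=
    isClosed_setOfPred_isCompactOperator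
  have hmem : T ∈ closure {T : H →L[ℝ] H | IsCompactOperator T} := by
    rw [Metric.mem_closure_iff]
    intro ε hε
    obtain ⟨E, hE, hQ⟩ := hU.exists_finite hM f
      (δ := (ε / (2 * (‖f‖ + 1))) ^ 2) (by positivity)
    have := hE
    refine ⟨T.comp E.starProjection, ?_, ?_⟩
    · have h1 : IsCompactOperator (E.starProjection : H → H) := by
        have h2 : IsCompactOperator (E.orthogonalProjectionOnto : H → E) :=
          isCompactOperator_of_locallyCompactSpace_dom E.orthogonalProjectionOnto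
        exact h2.clm_comp E.subtypeL
      exact h1.clm_comp T
    · rw [dist_eq_norm]
      refine lt_of_le_of_lt (b := ε / 2) ?_ (by linarith)
      refine ContinuousLinearMap.opNorm_le_bound _ (by positivity) fun v => ?_
      set w : H := v - E.starProjection v with hw
      have hw1 : (T - T.comp E.starProjection) v = T w := by
        simp [hw]
      have hwE : w ∈ Eᗮ := Submodule.sub_starProjection_mem_orthogonal v
      have hwn : ‖w‖ ≤ ‖v‖ := by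
        have h1 := Submodule.norm_sq_eq_add_norm_sq_starProjection v E
        have h2 : Eᗮ.starProjection v = w := by
          rw [Submodule.starProjection_orthogonal_val]
        rw [h2] at h1
        exact le_of_sq_le_sq (by nlinarith [sq_nonneg ‖E.starProjection v‖]) (norm_nonneg _)
      rw [hw1]
      have h3 : ‖T w‖ ^ 2 = M (fun h => ⟪w, U h f⟫_ℝ * ⟪T w, U h f⟫_ℝ) := by
        rw [← real_inner_self_eq_norm_sq, hT]
      have h4 := hM.sq_mul_le (hU.bdd w f) (hU.bdd (T w) f)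
      rw [← h3] at h4
      have h5 := hQ w hwE
      have h6 : M (fun h => ⟪T w, U h f⟫_ℝ * ⟪T w, U h f⟫_ℝ) ≤ ‖f‖ ^ 2 * ‖T w‖ ^ 2 := by
        have h7 := (abs_le.1 (hU.mean_le hM (T w) (T w) f)).2
        nlinarith [h7]
      have h8 : 0 ≤ M (fun h => ⟪w, U h f⟫_ℝ * ⟪w, U h f⟫_ℝ) :=
        hM.nonneg _ ((hU.bdd w f).mul (hU.bdd w f)) fun _ => mul_self_nonneg _
      have h9 : (‖T w‖ ^ 2) ^ 2 ≤ ((ε / (2 * (‖f‖ + 1))) ^ 2 * ‖w‖ ^ 2) * (‖f‖ ^ 2 * ‖T w‖ ^ 2) :=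
        h4.trans (mul_le_mul h5 h6 (hM.nonneg _ ((hU.bdd (T w) f).mul (hU.bdd (T w) f))
          fun _ => mul_self_nonneg _) (by positivity))
      by_cases h0 : ‖T w‖ = 0
      · rw [h0]; positivity
      have hpos : 0 < ‖T w‖ := lt_of_le_of_ne (norm_nonneg _) (Ne.symm h0)
      have h10 : ‖T w‖ ^ 2 ≤ ((ε / (2 * (‖f‖ + 1))) * ‖w‖ * ‖f‖) ^ 2 := by
        have h11 : ‖T w‖ ^ 2 * ‖T w‖ ^ 2 ≤
            ((ε / (2 * (‖f‖ + 1))) * ‖w‖ * ‖f‖) ^ 2 * ‖T w‖ ^ 2 := by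
          nlinarith [h9]
        exact le_of_mul_le_mul_right h11 (by positivity)
      have h12 : ‖T w‖ ≤ (ε / (2 * (‖f‖ + 1))) * ‖w‖ * ‖f‖ :=
        le_of_sq_le_sq h10 (by positivity)
      have h13 : (ε / (2 * (‖f‖ + 1))) * ‖w‖ * ‖f‖ ≤ ε / 2 * ‖v‖ := by
        have h14 : ‖f‖ / (‖f‖ + 1) ≤ 1 := by
          rw [div_le_one (by positivity)]
          linarith
        have h15 : (ε / (2 * (‖f‖ + 1))) * ‖w‖ * ‖f‖ = ε / 2 * ‖w‖ * (‖f‖ / (‖f‖ + 1)) := by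
          field_simp
        rw [h15]
        calc ε / 2 * ‖w‖ * (‖f‖ / (‖f‖ + 1)) ≤ ε / 2 * ‖w‖ * 1 :=
              mul_le_mul_of_nonneg_left h14 (by positivity)
          _ ≤ ε / 2 * ‖v‖ := by
              rw [mul_one]
              exact mul_le_mul_of_nonneg_left hwn (by positivity)
      exact h12.trans h13
  rw [hcl.closure_eq] at hmem
  exact hmem

/-- The operator commutes with the representation. -/
theorem IsRep.commute {U : G → H →L[ℝ] H} (hU : IsRep U)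
    (hM : IsInvMean G M) (f : H) (T : H →L[ℝ] H)
    (hT : ∀ v w, ⟪T v, w⟫_ℝ = M (fun h => ⟪v, U h f⟫_ℝ * ⟪w, U h f⟫_ℝ)) (g : G) (v : H) :
    T (U g v) = U g (T v) := by
  apply ext_inner_right ℝ
  intro w
  rw [hT, hU.inner_inv, hT]
  have h1 : (fun h => ⟪U g v, U h f⟫_ℝ * ⟪w, U h f⟫_ℝ) =
      fun h => (fun h => ⟪v, U h f⟫_ℝ * ⟪U g⁻¹ w, U h f⟫_ℝ) (g⁻¹ * h) := by
    funext h
    have h2 : ⟪U g v, U h f⟫_ℝ = ⟪v, U (g⁻¹ * h) f⟫_ℝ := by
      rw [hU.inner_inv, hU.mul]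
    have h3 : ⟪w, U h f⟫_ℝ = ⟪U g⁻¹ w, U (g⁻¹ * h) f⟫_ℝ := by
      rw [hU.mul, hU.inner]
    simp only [h2, h3]
  rw [h1, hM.inv g⁻¹ _ ((hU.bdd v f).mul (hU.bdd (U g⁻¹ w) f))]

omit [Group G] in
theorem op_symm {U : G → H →L[ℝ] H} (f : H) (T : H →L[ℝ] H)
    (hT : ∀ v w, ⟪T v, w⟫_ℝ = M (fun h => ⟪v, U h f⟫_ℝ * ⟪w, U h f⟫_ℝ)) :
    (T : H →ₗ[ℝ] H).IsSymmetric := by
  intro v w
  rw [ContinuousLinearMap.coe_coe, hT, real_inner_comm]
  change _ = ⟪T w, v⟫_ℝ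
  rw [hT]
  congr 1
  funext h
  ring

end Pool.Agent.Lib.MP_76c039_coAM
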